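import Pool.Agent.Q262.Miller.Thresh

set_option autoImplicit false

namespace Pool.Agent.Results.MP_86f038_nt.FormulaFails

open Q262.Miller

/-- The formula `m(12ℓ) = 10 s + m_r` fails for `ℓ = 304 > 300` (`m(12ℓ) ≤ 192` instead of `194`)
and already for `ℓ = 160` (`m(12ℓ) ≤ 102` instead of `104`). -/
theorem result :
    (∃ M, IsThreshold 304 M ∧ M ≤ 192) ∧ (∃ M, IsThreshold 160 M ∧ M ≤ 102) ∧
      ¬ ∀ l : ℕ, 30 < l → Formula l := by
  have h304 : HasZeroOffArc 304 192 := zero_off 304 192 112 (by norm_num) (by norm_num) ⟨56, rfl⟩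
    le_rfl K.W304 K.len304 K.chk304 K.neg304
  have h160 : HasZeroOffArc 160 102 := zero_off 160 102 58 (by norm_num) (by norm_num) ⟨29, rfl⟩
    (by norm_num) K.W160 K.len160 K.chk160 K.neg160
  have key : ∀ l m : ℕ, m ≤ l → HasZeroOffArc l m → ∃ M, IsThreshold l M ∧ M ≤ m := by
    intro l m hm h
    classical
    have hne : ∃ n, n ≤ l ∧ HasZeroOffArc l n := ⟨m, hm, h⟩
    refine ⟨Nat.find hne, ⟨Nat.find_spec hne, fun n hn => Nat.find_min' hne hn⟩,
      Nat.find_min' hne ⟨hm, h⟩⟩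
  refine ⟨key 304 192 (by norm_num) h304, key 160 102 (by norm_num) h160, fun hall => ?_⟩
  have h1 := (hall 304 (by norm_num)).1
  have h2 := h1.2 (show (192 : ℕ) ∈ {m | m ≤ 304 ∧ HasZeroOffArc 304 m} from ⟨by norm_num, h304⟩)
  simp [mr] at h2

end Pool.Agent.Results.MP_86f038_nt.FormulaFails
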